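import Mathlib.Tactic.Monotonicity.Lemmas
import Mathlib.Algebra.Field.ZMod
import Mathlib.Algebra.Order.Ring.Star
import Mathlib.Combinatorics.Matroid.Minor.Order
import Mathlib.RingTheory.SimpleRing.Principal
import Mathlib.Order.CompletePartialOrder
import Mathlib.RingTheory.Henselian
import Mathlib.RingTheory.RegularLocalRing.Defs

set_option autoImplicit false

open Set Submodule
open scoped Matroid

namespace Pool.Agent.MP_a6f858_co

section Lin

variable {K : Type*} [Field K] {V : Type*} [AddCommGroup V] [Module K V]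

/-- An independent family inside the span of a finite set is no larger than that set. -/
lemma ncard_le_of_span {v : ℕ → V} {Q : Set ℕ} (hQ : LinearIndepOn K v Q) {T : Set V}
    (hT : T.Finite) (h : ∀ q ∈ Q, v q ∈ span K T) : Q.ncard ≤ T.ncard := by
  have h1 : LinearIndepOn K id (v '' Q) := hQ.id_image
  obtain ⟨hf, hle⟩ := exists_finite_card_le_of_finite_of_linearIndependent_of_span hT h1
    (by rintro _ ⟨q, hq, rfl⟩; exact h q hq)
  rw [← hQ.injOn.ncard_image, ncard_eq_toFinset_card _ hf, ncard_eq_toFinset_card _ hT]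
  exact hle

/-- Triangular functionals give independence. -/
lemma indep_of_triangular {v : ℕ → V} {s : Set ℕ} (f : ℕ → V →ₗ[K] K)
    (h1 : ∀ j ∈ s, f j (v j) ≠ 0) (h2 : ∀ i ∈ s, ∀ j ∈ s, j < i → f j (v i) = 0) :
    LinearIndepOn K v s := by
  classical
  rw [linearIndepOn_iff']
  intro t g hts h0 i
  induction i using Nat.strong_induction_on with
  | _ j ih =>
    intro hj
    have h3 := congrArg (f j) h0
    rw [map_sum, map_zero, Finset.sum_eq_single j] at h3
    · rw [map_smul, smul_eq_mul, mul_eq_zero] at h3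
      exact h3.resolve_right (h1 j (hts hj))
    · intro i hi hij
      rw [map_smul, smul_eq_mul]
      rcases lt_or_gt_of_ne hij with h | h
      · rw [ih i h hi, zero_mul]
      · rw [h2 i (hts hi) j (hts hj) h, mul_zero]
    · intro h; exact absurd hj h

/-- Independence upstairs from independence of the image under a map killing `C`. -/
lemma indep_union_of_map {W : Type*} [AddCommGroup W] [Module K W] (φ : V →ₗ[K] W)
    {v : ℕ → V} {J C : Set ℕ} (hC : LinearIndepOn K v C) (h0 : ∀ c ∈ C, φ (v c) = 0)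
    (hJ : LinearIndepOn K (φ ∘ v) J) : LinearIndepOn K v (J ∪ C) := by
  rw [union_comm]
  apply hC.union_of_quotient
  have hle : span K (v '' C) ≤ LinearMap.ker φ := by
    rw [span_le]; rintro _ ⟨c, hc, rfl⟩; exact h0 c hc
  apply LinearIndepOn.of_comp ((span K (v '' C)).liftQ φ hle)
  exact hJ

/-- Independence of the image when the kernel is exactly the span of `C`. -/
lemma indep_map_of_union {W : Type*} [AddCommGroup W] [Module K W] (φ : V →ₗ[K] W)
    {v : ℕ → V} {J C : Set ℕ} (hd : Disjoint J C) (hker : LinearMap.ker φ ≤ span K (v '' C))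
    (h : LinearIndepOn K v (J ∪ C)) : LinearIndepOn K (φ ∘ v) J := by
  obtain ⟨h1, -, h3⟩ := (linearIndepOn_union_iff hd).1 h
  apply LinearIndependent.map h1
  rw [← image_eq_range]
  exact h3.mono_right hker

lemma lin_aug {v : ℕ → V} {I J : Set ℕ} (hIf : I.Finite) (hI : LinearIndepOn K v I)
    (hJ : LinearIndepOn K v J) (hlt : I.ncard < J.ncard) :
    ∃ e ∈ J, e ∉ I ∧ LinearIndepOn K v (insert e I) := by
  by_contra hcon
  push Not at hcon
  have : J.ncard ≤ (v '' I).ncard := by
    apply ncard_le_of_span hJ (hIf.image v)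
    intro q hq
    rw [hI.mem_span_iff]
    intro hins
    by_contra hqI
    exact hcon q hq hqI hins
  have h2 := ncard_image_le (f := v) hIf
  omega

/-- The linear matroid of a family of vectors on a finite ground set. -/
noncomputable def linM (K : Type*) [Field K] {V : Type*} [AddCommGroup V] [Module K V]
    (v : ℕ → V) (E : Set ℕ) (hE : E.Finite) : Matroid ℕ :=
  (IndepMatroid.ofFinite hE (fun I => I ⊆ E ∧ LinearIndepOn K v I)
    ⟨empty_subset _, linearIndepOn_empty K v⟩
    (fun _ _ hJ hIJ => ⟨hIJ.trans hJ.1, hJ.2.mono hIJ⟩)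
    (by
      intro I J hI hJ hlt
      obtain ⟨e, he, heI, h⟩ := lin_aug (hE.subset hI.1) hI.2 hJ.2 hlt
      exact ⟨e, he, heI, insert_subset (hJ.1 he) hI.1, h⟩)
    (fun _ hI => hI.1)).matroid

@[simp] lemma linM_E (v : ℕ → V) (E : Set ℕ) (hE : E.Finite) : (linM K v E hE).E = E := rfl

lemma linM_indep (v : ℕ → V) (E : Set ℕ) (hE : E.Finite) (I : Set ℕ) :
    (linM K v E hE).Indep I ↔ I ⊆ E ∧ LinearIndepOn K v I := by
  simp [linM]

lemma linM_finite (v : ℕ → V) (E : Set ℕ) (hE : E.Finite) : (linM K v E hE).Finite := ⟨hE⟩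

/-- Relaxation of a circuit-hyperplane `X` of a linear matroid. -/
noncomputable def relaxM (K : Type*) [Field K] {V : Type*} [AddCommGroup V] [Module K V]
    (v : ℕ → V) (E : Set ℕ) (hE : E.Finite) (X : Set ℕ) (hXE : X ⊆ E)
    (h1 : ∀ x ∈ X, LinearIndepOn K v (X \ {x}))
    (h2 : ∀ I ⊆ E, LinearIndepOn K v I → I.ncard ≤ X.ncard)
    (h3 : ∃ x ∈ X, ∀ y ∈ E \ X, LinearIndepOn K v (insert y (X \ {x}))) : Matroid ℕ :=
  (IndepMatroid.ofFinite hE (fun I => (I ⊆ E ∧ LinearIndepOn K v I) ∨ I = X)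
    (Or.inl ⟨empty_subset _, linearIndepOn_empty K v⟩)
    (by
      rintro I J (hJ | rfl) hIJ
      · exact Or.inl ⟨hIJ.trans hJ.1, hJ.2.mono hIJ⟩
      · by_cases hI : I = J
        · exact Or.inr hI
        · obtain ⟨x, hx, hxI⟩ := exists_of_ssubset (hIJ.ssubset_of_ne hI)
          refine Or.inl ⟨hIJ.trans hXE, (h1 x hx).mono ?_⟩
          intro a ha
          exact ⟨hIJ ha, fun h => hxI (by rw [mem_singleton_iff] at h; exact h ▸ ha)⟩)
    (by
      rintro I J (hI | rfl) (hJ | rfl) hlt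
      · obtain ⟨e, he, heI, h⟩ := lin_aug (hE.subset hI.1) hI.2 hJ.2 hlt
        exact ⟨e, he, heI, Or.inl ⟨insert_subset (hJ.1 he) hI.1, h⟩⟩
      · by_cases hIX : I ⊆ J
        · obtain ⟨x, hx, hxI⟩ := exists_of_ssubset (hIX.ssubset_of_ne (by
            rintro rfl; exact lt_irrefl _ hlt))
          refine ⟨x, hx, hxI, ?_⟩
          by_cases hI' : insert x I = J
          · exact Or.inr hI'
          · obtain ⟨z, hz, hzI⟩ := exists_of_ssubset
              ((insert_subset hx hIX).ssubset_of_ne hI')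
            refine Or.inl ⟨(insert_subset hx hIX).trans hXE, (h1 z hz).mono ?_⟩
            intro a ha
            exact ⟨insert_subset hx hIX ha, fun h => hzI (by rw [mem_singleton_iff] at h; exact h ▸ ha)⟩
        · by_contra hcon
          push Not at hcon
          obtain ⟨y, hyI, hyJ⟩ := not_subset.1 hIX
          obtain ⟨x, hx, h3⟩ := h3
          have h4 := h3 y ⟨hI.1 hyI, hyJ⟩
          have h5 : (insert y (J \ {x})).ncard ≤ (v '' I).ncard := by
            apply ncard_le_of_span h4 ((hE.subset hI.1).image v)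
            rintro q (rfl | hq)
            · exact subset_span (mem_image_of_mem v hyI)
            · rw [hI.2.mem_span_iff]
              intro hins
              by_contra hqI
              exact (hcon q hq.1 hqI).1 (insert_subset (hXE hq.1) hI.1) hins
          have h6 := ncard_image_le (f := v) (hE.subset hI.1)
          have hJf : J.Finite := hE.subset hXE
          rw [ncard_insert_of_notMem (fun h => hyJ h.1) (hJf.subset sdiff_subset),
            ncard_sdiff_singleton_add_one hx hJf] at h5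
          omega
      · have := h2 J hJ.1 hJ.2
        omega
      · exact absurd hlt (lt_irrefl _))
    (by
      rintro I (hI | rfl)
      · exact hI.1
      · exact hXE)).matroid

@[simp] lemma relaxM_E (v : ℕ → V) (E : Set ℕ) (hE : E.Finite) (X : Set ℕ) (hXE h1 h2 h3) :
    (relaxM K v E hE X hXE h1 h2 h3).E = E := rfl

lemma relaxM_indep (v : ℕ → V) (E : Set ℕ) (hE : E.Finite) (X : Set ℕ) (hXE h1 h2 h3)
    (I : Set ℕ) : (relaxM K v E hE X hXE h1 h2 h3).Indep I ↔
      (I ⊆ E ∧ LinearIndepOn K v I) ∨ I = X := by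
  simp [relaxM]

lemma relaxM_finite (v : ℕ → V) (E : Set ℕ) (hE : E.Finite) (X : Set ℕ) (hXE h1 h2 h3) :
    (relaxM K v E hE X hXE h1 h2 h3).Finite := ⟨hE⟩

end Lin

/-- Four vectors over the two-element field cannot form a four-point line modulo `I`. -/
lemma no_four_point_line {V : Type*} [AddCommGroup V] [Module (ZMod 2) V] {v : ℕ → V}
    {I : Set ℕ} {a b c d : ℕ} (hc : c ∉ I) (hac : a ≠ c) (hbc : b ≠ c) (hcd : c ≠ d)
    (h1 : LinearIndepOn (ZMod 2) v ({a, b} ∪ I)) (h2 : LinearIndepOn (ZMod 2) v ({a, c} ∪ I))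
    (h3 : LinearIndepOn (ZMod 2) v ({b, c} ∪ I)) (h4 : LinearIndepOn (ZMod 2) v ({a, d} ∪ I))
    (h5 : LinearIndepOn (ZMod 2) v ({b, d} ∪ I)) (h6 : LinearIndepOn (ZMod 2) v ({c, d} ∪ I))
    (h7 : ¬ LinearIndepOn (ZMod 2) v ({a, b, c} ∪ I))
    (h8 : ¬ LinearIndepOn (ZMod 2) v ({a, b, d} ∪ I)) : False := by
  rw [linearDepOn_iff'] at h7 h8
  obtain ⟨l, hl, hl0, hlne⟩ := h7
  obtain ⟨m, hm, hm0, hmne⟩ := h8
  rw [linearIndepOn_iff] at h1 h2 h3 h4 h5 h6
  rw [Finsupp.mem_supported'] at hl hm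
  have two : ∀ x : ZMod 2, x ≠ 0 → x = 1 := by decide
  have la : l a = 1 := two _ fun h => hlne <| h3 l (by
    rw [Finsupp.mem_supported']; intro x hx
    by_cases hxa : x = a
    · rw [hxa, h]
    · apply hl; simp only [mem_union, mem_insert_iff, mem_singleton_iff] at hx ⊢; tauto) hl0
  have lb : l b = 1 := two _ fun h => hlne <| h2 l (by
    rw [Finsupp.mem_supported']; intro x hx
    by_cases hxa : x = b
    · rw [hxa, h]
    · apply hl; simp only [mem_union, mem_insert_iff, mem_singleton_iff] at hx ⊢; tauto) hl0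
  have lc : l c = 1 := two _ fun h => hlne <| h1 l (by
    rw [Finsupp.mem_supported']; intro x hx
    by_cases hxa : x = c
    · rw [hxa, h]
    · apply hl; simp only [mem_union, mem_insert_iff, mem_singleton_iff] at hx ⊢; tauto) hl0
  have ma : m a = 1 := two _ fun h => hmne <| h5 m (by
    rw [Finsupp.mem_supported']; intro x hx
    by_cases hxa : x = a
    · rw [hxa, h]
    · apply hm; simp only [mem_union, mem_insert_iff, mem_singleton_iff] at hx ⊢; tauto) hm0
  have mb : m b = 1 := two _ fun h => hmne <| h4 m (by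
    rw [Finsupp.mem_supported']; intro x hx
    by_cases hxa : x = b
    · rw [hxa, h]
    · apply hm; simp only [mem_union, mem_insert_iff, mem_singleton_iff] at hx ⊢; tauto) hm0
  have mc : m c = 0 := hm c (by
    simp only [mem_union, mem_insert_iff, mem_singleton_iff]
    have := hac.symm; have := hbc.symm; tauto)
  have h9 := h6 (l - m) (by
    rw [Finsupp.mem_supported']; intro x hx
    simp only [mem_union, mem_insert_iff, mem_singleton_iff] at hx
    rw [Finsupp.sub_apply]
    by_cases hxa : x = a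
    · rw [hxa, la, ma, sub_self]
    by_cases hxb : x = b
    · rw [hxb, lb, mb, sub_self]
    rw [hl x, hm x, sub_self] <;>
      simp only [mem_union, mem_insert_iff, mem_singleton_iff] <;> tauto)
    (by rw [map_sub, hl0, hm0, sub_self])
  have h10 := congrArg (fun f => f c) h9
  simp [lc, mc] at h10

section Minor

variable {P N : Matroid ℕ}

/-- A minor is described by contracting an independent set. -/
lemma minor_indep (h : N ≤m P) : ∃ I, P.Indep I ∧ Disjoint I N.E ∧
    ∀ J ⊆ N.E, (N.Indep J ↔ P.Indep (J ∪ I)) := by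
  obtain ⟨C, D, hC, hD, hCD, rfl⟩ := h.exists_eq_contract_delete_disjoint
  obtain ⟨I, hI⟩ := P.exists_isBasis C hC
  refine ⟨I, hI.indep, ?_, ?_⟩
  · simp only [Matroid.delete_ground, Matroid.contract_ground]
    exact Set.disjoint_left.2 fun x hx hx' => hx'.1.2 (hI.subset hx)
  · intro J hJ
    simp only [Matroid.delete_ground, Matroid.contract_ground] at hJ
    rw [Matroid.delete_indep_iff, hI.contract_indep_iff]
    have h1 : Disjoint C J := Set.disjoint_left.2 fun x hx hx' => (hJ hx').1.2 hx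
    have h2 : Disjoint J D := Set.disjoint_left.2 fun x hx hx' => (hJ hx).2 hx'
    tauto

/-- A minor can be extended to a spanning configuration. -/
lemma minor_spanning (h : N ≤m P) : ∃ I B, N.IsBase B ∧ P.IsBase (B ∪ I) ∧ Disjoint I N.E ∧
    ∀ J, N.Indep J → P.Indep (J ∪ I) := by
  obtain ⟨I₀, hI₀, hd, hiff⟩ := minor_indep h
  obtain ⟨B₁, hB₁⟩ := N.exists_isBase
  have hB₁i : P.Indep (B₁ ∪ I₀) := (hiff B₁ hB₁.subset_ground).1 hB₁.indep
  obtain ⟨B, hB, hsub⟩ := hB₁i.exists_isBase_superset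
  have hNE : N.E ⊆ (P ／ I₀).E := by
    intro x hx
    exact ⟨h.subset hx, fun hxI => Set.disjoint_left.1 hd hxI hx⟩
  -- bases of `N` are bases of `N.E` in `P / I₀`
  have hbasis : ∀ B', N.IsBase B' → (P ／ I₀).IsBasis B' N.E := by
    intro B' hB'
    have hi : (P ／ I₀).Indep B' := by
      rw [hI₀.contract_indep_iff]
      exact ⟨(hd.mono_right hB'.subset_ground).symm, (hiff B' hB'.subset_ground).1 hB'.indep⟩
    refine hi.isBasis_of_maximal_subset hB'.subset_ground (fun J hJ hB'J hJE => ?_) hNE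
    rw [hI₀.contract_indep_iff] at hJ
    exact (hB'.eq_of_subset_indep ((hiff J hJE).2 hJ.2) hB'J).symm.subset
  have hdisj : Disjoint (B \ B₁) N.E := by
    rw [Set.disjoint_left]
    intro x hx hxE
    have : N.Indep (insert x B₁) := by
      rw [hiff _ (insert_subset hxE hB₁.subset_ground)]
      refine hB.indep.subset ?_
      rw [insert_union]
      exact insert_subset hx.1 hsub
    exact hx.2 ((hB₁.eq_of_subset_indep this (subset_insert _ _)).symm ▸ mem_insert x B₁)
  refine ⟨B \ B₁, B₁, hB₁, ?_, hdisj, ?_⟩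
  · rwa [union_sdiff_cancel (subset_union_left.trans hsub)]
  · intro J hJ
    obtain ⟨J', hJ', hJJ'⟩ := hJ.exists_isBase_superset
    have hK : ((P ／ I₀) ／ N.E).Indep (B \ (B₁ ∪ I₀)) := by
      rw [(hbasis B₁ hB₁).contract_indep_iff, hI₀.contract_indep_iff]
      refine ⟨⟨?_, hB.indep.subset ?_⟩, ?_⟩
      · rw [disjoint_union_left]
        exact ⟨Set.disjoint_left.2 fun x hx hx' => hx.2 (Or.inr hx'),
          (hd.mono_right hB₁.subset_ground).symm⟩
      · rw [union_assoc]
        exact union_subset sdiff_subset hsub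
      · exact (hdisj.mono_left (sdiff_subset_sdiff_right subset_union_left)).symm
    rw [(hbasis J' hJ').contract_indep_iff, hI₀.contract_indep_iff] at hK
    refine hK.1.2.subset ?_
    rintro x (hx | hx)
    · exact Or.inl (Or.inr (hJJ' hx))
    · by_cases hxI : x ∈ I₀
      · exact Or.inr hxI
      · exact Or.inl (Or.inl ⟨hx.1, fun h => h.elim hx.2 hxI⟩)

/-- The connectivity property of the ten-element regular matroid that is used. -/
def Wide (N : Matroid ℕ) : Prop :=
  N.E.ncard = 10 ∧ (∀ B, N.Indep B → B.ncard ≤ 5) ∧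
    ∀ A ⊆ N.E, A.ncard = 5 → ∃ J ⊆ A, ∃ J' ⊆ N.E \ A, N.Indep J ∧ N.Indep J' ∧
      9 ≤ J.ncard + J'.ncard

lemma wide_minor (hP : P.E.Finite) (h : N ≤m P) (hN : Wide N) (S : Set ℕ)
    (hS : (N.E ∩ S).ncard = 5) :
    ∃ Q ⊆ S, ∃ Q' ⊆ Sᶜ, ∃ B, P.Indep Q ∧ P.Indep Q' ∧ P.IsBase B ∧
      B.ncard + 4 ≤ Q.ncard + Q'.ncard := by
  obtain ⟨I, B₁, hB₁, hB, hd, hind⟩ := minor_spanning h
  obtain ⟨J, hJ, J', hJ', hJi, hJ'i, hcard⟩ := hN.2.2 (N.E ∩ S) inter_subset_left hS
  have h5 := hN.2.1 B₁ hB₁.indep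
  have hIf : I.Finite := (hP.subset hB.subset_ground).subset subset_union_right
  have hNf : N.E.Finite := hP.subset h.subset
  refine ⟨J ∪ (I ∩ S), union_subset (hJ.trans inter_subset_right) inter_subset_right,
    J' ∪ (I \ S), union_subset ?_ (fun x hx => hx.2), B₁ ∪ I,
    (hind J hJi).subset (union_subset_union_right _ inter_subset_left),
    (hind J' hJ'i).subset (union_subset_union_right _ sdiff_subset), hB, ?_⟩
  · intro x hx hxS
    exact (hJ' hx).2 ⟨(hJ' hx).1, hxS⟩
  · rw [ncard_union_eq ((hd.mono inter_subset_left hJi.subset_ground).symm)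
      (hNf.subset hJi.subset_ground) (hIf.subset inter_subset_left),
      ncard_union_eq ((hd.mono sdiff_subset hJ'i.subset_ground).symm)
      (hNf.subset hJ'i.subset_ground) (hIf.subset sdiff_subset)]
    have h1 := ncard_union_le B₁ I
    have h2 := ncard_inter_add_ncard_sdiff_eq_ncard I S hIf
    omega

lemma wide_of_iso {M : Matroid ℕ} (hM : Wide M) (f : ℕ → ℕ) (hf : BijOn f N.E M.E)
    (hi : ∀ I ⊆ N.E, (N.Indep I ↔ M.Indep (f '' I))) : Wide N := by
  have hc : ∀ A ⊆ N.E, (f '' A).ncard = A.ncard := fun A hA => (hf.injOn.mono hA).ncard_image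
  refine ⟨?_, ?_, ?_⟩
  · rw [← hc _ subset_rfl, hf.image_eq, hM.1]
  · intro B hB
    rw [← hc B hB.subset_ground]
    exact hM.2.1 _ ((hi B hB.subset_ground).1 hB)
  · intro A hA hA5
    obtain ⟨J, hJ, J', hJ', hJi, hJ'i, hcard⟩ := hM.2.2 (f '' A)
      (by rw [← hf.image_eq]; exact image_mono hA) (by rw [hc A hA, hA5])
    have e1 : f '' (A ∩ f ⁻¹' J) = J := by
      rw [image_inter_preimage, inter_eq_right.2 hJ]
    have e2 : f '' ((N.E \ A) ∩ f ⁻¹' J') = J' := by
      rw [image_inter_preimage, inter_eq_right]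
      intro y hy
      obtain ⟨x, hx, rfl⟩ := hf.surjOn (hJ' hy).1
      exact ⟨x, ⟨hx, fun hxA => (hJ' hy).2 (mem_image_of_mem f hxA)⟩, rfl⟩
    have s1 : A ∩ f ⁻¹' J ⊆ N.E := inter_subset_left.trans hA
    have s2 : (N.E \ A) ∩ f ⁻¹' J' ⊆ N.E := inter_subset_left.trans sdiff_subset
    refine ⟨A ∩ f ⁻¹' J, inter_subset_left, (N.E \ A) ∩ f ⁻¹' J', inter_subset_left,
      (hi _ s1).2 (e1.symm ▸ hJi), (hi _ s2).2 (e2.symm ▸ hJ'i), ?_⟩
    rw [← hc _ s1, ← hc _ s2, e1, e2]
    exact hcard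

/-- A proper minor is a minor of a single-element deletion or contraction. -/
lemma proper_minor (h : N ≤m P) (hne : N ≠ P) :
    ∃ e ∈ P.E, N ≤m P ／ {e} ∨ N ≤m P ＼ {e} := by
  obtain ⟨C, D, hC, hD, hCD, rfl⟩ := h.exists_eq_contract_delete_disjoint
  rcases C.eq_empty_or_nonempty with rfl | ⟨e, he⟩
  · rcases D.eq_empty_or_nonempty with rfl | ⟨e, he⟩
    · simp at hne
    · refine ⟨e, hD he, Or.inr ⟨∅, D, ?_⟩⟩
      simp [insert_eq_of_mem he]
  · refine ⟨e, hC he, Or.inl ⟨C, D, ?_⟩⟩
    simp [insert_eq_of_mem he]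

end Minor

/-- Discrete intermediate value property for counting. -/
lemma exists_ncard_inter_Iio {T : Set ℕ} (hT : T.Finite) {j : ℕ} (hj : j ≤ T.ncard) :
    ∃ m, (T ∩ Iio m).ncard = j := by
  classical
  have hex : ∃ m, j ≤ (T ∩ Iio m).ncard := by
    obtain ⟨b, hb⟩ := hT.bddAbove
    refine ⟨b + 1, ?_⟩
    have : T ⊆ Iio (b + 1) := fun x hx => Nat.lt_succ_of_le (hb hx)
    rwa [inter_eq_left.2 this]
  refine ⟨Nat.find hex, le_antisymm ?_ (Nat.find_spec hex)⟩
  rcases h : Nat.find hex with _ | m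
  · simp
  · have h1 := Nat.find_min hex (m := m) (by omega)
    have h2 : T ∩ Iio (m + 1) ⊆ insert m (T ∩ Iio m) := by
      rintro x ⟨hx, hx'⟩
      rcases Nat.lt_succ_iff_lt_or_eq.1 hx' with h | h
      · exact Or.inr ⟨hx, h⟩
      · exact Or.inl h
    have h3 := ncard_le_ncard h2 ((hT.subset inter_subset_left).insert m)
    have h4 := ncard_insert_le m (T ∩ Iio m)
    omega

end Pool.Agent.MP_a6f858_co
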