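import Mathlib.Order.Interval.Set.Nat
import Pool.Agent.MP_a6f858_co.General

set_option autoImplicit false

open Set Submodule
open scoped Matroid

namespace Pool.Agent.MP_a6f858_co

/-- The ten vectors of `R10`: `w (2i) = e i`, `w (2i+1) = 1 + e i + e (i+1)`. -/
def w (q : ℕ) : Fin 5 → ZMod 2 := fun c =>
  if q % 2 = 0 then (if c.val = q / 2 then 1 else 0)
  else (if c.val = q / 2 ∨ c.val = (q / 2 + 1) % 5 then 0 else 1)

/-- The matroid `R10` on `{0, …, 9}`. -/
noncomputable def R10 : Matroid ℕ := linM (ZMod 2) w (Iio 10) (finite_Iio 10)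

lemma indep_iff_zero_sum {V : Type*} [AddCommGroup V] [Module (ZMod 2) V] (v : ℕ → V)
    (J : Finset ℕ) (h : ∀ Z ∈ J.powerset, ∑ z ∈ Z, v z = 0 → Z = ∅) :
    LinearIndepOn (ZMod 2) v J := by
  classical
  rw [linearIndepOn_iff']
  intro t g ht h0 i hi
  have two : ∀ x : ZMod 2, x ≠ 0 → x = 1 := by decide
  have h1 := h (t.filter (fun z => g z ≠ 0))
    (Finset.mem_powerset.2 ((Finset.filter_subset _ _).trans (by exact_mod_cast ht))) (by
      rw [← h0, Finset.sum_filter]
      apply Finset.sum_congr rfl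
      intro z _
      split_ifs with hz
      · rw [two _ hz, one_smul]
      · rw [not_not.1 hz, zero_smul])
  by_contra hne
  have : i ∈ t.filter (fun z => g z ≠ 0) := Finset.mem_filter.2 ⟨hi, hne⟩
  rw [h1] at this
  simp at this

/-- Decidable independence test. -/
def ind (J : Finset ℕ) : Prop := ∀ Z ∈ J.powerset, ∑ z ∈ Z, w z = 0 → Z = ∅

instance (J : Finset ℕ) : Decidable (ind J) := by unfold ind; infer_instance

lemma R10_check : ∀ A ∈ (Finset.range 10).powersetCard 5,
    (ind A ∧ ∃ x ∈ Finset.range 10 \ A, ind ((Finset.range 10 \ A).erase x)) ∨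
    (ind (Finset.range 10 \ A) ∧ ∃ x ∈ A, ind (A.erase x)) := by
  decide +kernel

lemma R10_wide : Wide R10 := by
  classical
  refine ⟨by simp [R10], ?_, ?_⟩
  · intro B hB
    rw [R10, linM_indep] at hB
    have := ncard_le_of_span hB.2 (finite_range (Pi.basisFun (ZMod 2) (Fin 5)))
      (by intro q _; rw [(Pi.basisFun (ZMod 2) (Fin 5)).span_eq]; trivial)
    refine this.trans ?_
    rw [← image_univ]
    refine (ncard_image_le finite_univ).trans ?_
    simp [ncard_univ]
  · intro A hA hA5
    have hAf : A.Finite := (finite_Iio 10).subset hA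
    lift A to Finset ℕ using hAf
    rw [ncard_coe_finset] at hA5
    have hA' : A ⊆ Finset.range 10 := fun x hx => Finset.mem_range.2 (hA hx)
    have hc : (Finset.range 10 \ A).card = 5 := by
      rw [Finset.card_sdiff_of_subset hA', Finset.card_range, hA5]
    have hsub : ((Finset.range 10 \ A : Finset ℕ) : Set ℕ) ⊆ R10.E \ A := by
      intro x hx
      simpa [R10] using hx
    have hind : ∀ J : Finset ℕ, J ⊆ Finset.range 10 → ind J → R10.Indep J := by
      intro J hJ h
      rw [R10, linM_indep]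
      exact ⟨fun x hx => Finset.mem_range.1 (hJ hx), indep_iff_zero_sum w J h⟩
    rcases R10_check A (Finset.mem_powersetCard.2 ⟨hA', hA5⟩) with ⟨h1, x, hx, h2⟩ | ⟨h1, x, hx, h2⟩
    · refine ⟨A, subset_rfl, ((Finset.range 10 \ A).erase x : Finset ℕ),
        (Finset.coe_subset.2 (Finset.erase_subset _ _)).trans hsub, hind A hA' h1,
        hind _ ((Finset.erase_subset _ _).trans Finset.sdiff_subset) h2, ?_⟩
      rw [ncard_coe_finset, ncard_coe_finset, Finset.card_erase_of_mem hx, hc, hA5]
    · refine ⟨(A.erase x : Finset ℕ), Finset.coe_subset.2 (Finset.erase_subset _ _),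
        (Finset.range 10 \ A : Finset ℕ), hsub, hind _ ((Finset.erase_subset _ _).trans hA') h2,
        hind _ Finset.sdiff_subset h1, ?_⟩
      rw [ncard_coe_finset, ncard_coe_finset, Finset.card_erase_of_mem hx, hc, hA5]

end Pool.Agent.MP_a6f858_co
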