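import Mathlib.RingTheory.Flat.TorsionFree
import Mathlib.RingTheory.TotallySplit
import Mathlib.RingTheory.Etale.Weakly
import Pool.Agent.MP_a6f858_co.R10

set_option autoImplicit false

open Set Submodule
open scoped Matroid

namespace Pool.Agent.MP_a6f858_co

abbrev F2 := ZMod 2

/-- The vector `t`. -/
def tv (k : ℕ) : Fin k → F2 := fun c => if c.val = 0 then 1 else 0

/-- The vectors `x i`, with `x 0 = x 1 + ⋯ + x (k-1)`. -/
def xv (k i : ℕ) : Fin k → F2 := fun c =>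
  if c.val = 0 then 0 else if i = 0 ∨ c.val = i then 1 else 0

/-- `v (2i) = x i` and `v (2i+1) = t + x i + x (i+1)`, indices mod `k`. -/
def vv (k q : ℕ) : Fin k → F2 :=
  if q % 2 = 0 then xv k (q / 2) else tv k + xv k (q / 2) + xv k ((q / 2 + 1) % k)

/-- Coordinate functionals. -/
def co (k c : ℕ) : (Fin k → F2) →ₗ[F2] F2 :=
  if h : c < k then LinearMap.proj (⟨c, h⟩ : Fin k) else 0

lemma co_tv {k c : ℕ} (h : c < k) : co k c (tv k) = if c = 0 then 1 else 0 := by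
  simp [co, h, tv]

lemma co_xv {k c : ℕ} (h : c < k) (i : ℕ) :
    co k c (xv k i) = if c = 0 then 0 else if i = 0 ∨ c = i then 1 else 0 := by
  simp [co, h, xv]

/-- The even positions. -/
def XX (k : ℕ) : Set ℕ := {q | q < 2 * k ∧ q % 2 = 0}

lemma XX_eq (k : ℕ) : XX k = (fun i => 2 * i) '' Iio k := by
  ext q
  simp only [XX, mem_ofPred_eq, mem_image, mem_Iio]
  constructor
  · rintro ⟨h1, h2⟩; exact ⟨q / 2, by omega, by omega⟩
  · rintro ⟨i, h1, rfl⟩; omega

lemma XX_ncard (k : ℕ) : (XX k).ncard = k := by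
  rw [XX_eq, ncard_image_of_injective _ (fun a b h => by simpa using h)]
  simp

lemma XX_sub (k : ℕ) : XX k ⊆ Iio (2 * k) := fun _ h => h.1

lemma XX_finite (k : ℕ) : (XX k).Finite := (finite_Iio _).subset (XX_sub k)

lemma indep_XX_sdiff (k : ℕ) : ∀ x ∈ XX k, LinearIndepOn F2 (vv k) (XX k \ {x}) := by
  intro x hx
  apply indep_of_triangular (fun q => co k (q / 2) + co k (x / 2))
  · rintro j ⟨hj, hjx⟩
    have hjx' : j ≠ x := hjx
    obtain ⟨hj1, hj2⟩ := hj
    obtain ⟨hx1, hx2⟩ := hx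
    simp only [vv, hj2, if_true, LinearMap.add_apply]
    rw [co_xv (by omega), co_xv (by omega)]
    split_ifs <;> first | omega | decide
  · rintro i ⟨hi, hix⟩ j ⟨hj, hjx⟩ hji
    have hjx' : j ≠ x := hjx
    have hix' : i ≠ x := hix
    obtain ⟨hj1, hj2⟩ := hj
    obtain ⟨hi1, hi2⟩ := hi
    obtain ⟨hx1, hx2⟩ := hx
    simp only [vv, hi2, if_true, LinearMap.add_apply]
    rw [co_xv (by omega), co_xv (by omega)]
    split_ifs <;> first | omega | decide

lemma ncard_le_dim (k : ℕ) {I : Set ℕ} (h : LinearIndepOn F2 (vv k) I) : I.ncard ≤ k := by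
  have := ncard_le_of_span h (finite_range (Pi.basisFun F2 (Fin k)))
    (by intro q _; rw [(Pi.basisFun F2 (Fin k)).span_eq]; trivial)
  refine this.trans ?_
  rw [← image_univ]
  refine (ncard_image_le finite_univ).trans ?_
  simp [ncard_univ]

lemma hyper (k : ℕ) (hk : 0 < k) : ∃ x ∈ XX k, ∀ y ∈ Iio (2 * k) \ XX k,
    LinearIndepOn F2 (vv k) (insert y (XX k \ {x})) := by
  have h0 : 0 ∈ XX k := ⟨by omega, rfl⟩
  refine ⟨0, h0, fun y hy => (indep_XX_sdiff k 0 h0).insert fun hmem => ?_⟩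
  have hle : span F2 (vv k '' (XX k \ {0})) ≤ LinearMap.ker (co k 0) := by
    rw [span_le]
    rintro _ ⟨q, ⟨hq, -⟩, rfl⟩
    simp [vv, hq.2, co_xv hk]
  have h1 := hle hmem
  have hy2 : ¬ y % 2 = 0 := fun h => hy.2 ⟨hy.1, h⟩
  simp [vv, hy2, co_xv hk, co_tv hk] at h1

/-- The relaxed matroid. -/
noncomputable def NN (k : ℕ) (hk : 0 < k) : Matroid ℕ :=
  relaxM F2 (vv k) (Iio (2 * k)) (finite_Iio _) (XX k) (XX_sub k) (indep_XX_sdiff k)
    (fun _ _ h => by rw [XX_ncard]; exact ncard_le_dim k h) (hyper k hk)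

lemma NN_E (k : ℕ) (hk : 0 < k) : (NN k hk).E = Iio (2 * k) := rfl

lemma NN_indep (k : ℕ) (hk : 0 < k) (I : Set ℕ) : (NN k hk).Indep I ↔
    (I ⊆ Iio (2 * k) ∧ LinearIndepOn F2 (vv k) I) ∨ I = XX k := relaxM_indep ..

lemma NN_indep_of_ne {k : ℕ} {hk : 0 < k} {I : Set ℕ} (h : I ≠ XX k) (hI : I ⊆ Iio (2 * k)) :
    (NN k hk).Indep I ↔ LinearIndepOn F2 (vv k) I := by
  rw [NN_indep]; tauto

lemma NN_ncard_le {k : ℕ} {hk : 0 < k} {I : Set ℕ} (h : (NN k hk).Indep I) : I.ncard ≤ k := by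
  rcases (NN_indep k hk I).1 h with h | rfl
  · exact ncard_le_dim k h.2
  · exact (XX_ncard k).le

lemma NN_XX (k : ℕ) (hk : 0 < k) : (NN k hk).Indep (XX k) := (NN_indep k hk _).2 (Or.inr rfl)

lemma gen_bound {k : ℕ} {hk : 0 < k} {Q : Set ℕ} (hQ : (NN k hk).Indep Q) {G : Set ℕ}
    (hG : G.Finite) (h : ∀ q ∈ Q, q / 2 ∈ G ∧ (q + 1) / 2 % k ∈ G) :
    Q.ncard ≤ G.ncard + 1 := by
  rcases (NN_indep k hk Q).1 hQ with hQ | rfl
  · have h1 := ncard_le_of_span hQ.2 ((hG.image (xv k)).insert (tv k)) (by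
      intro q hq
      have ht : tv k ∈ span F2 (insert (tv k) (xv k '' G)) := subset_span (mem_insert _ _)
      have hx : ∀ i ∈ G, xv k i ∈ span F2 (insert (tv k) (xv k '' G)) := fun i hi =>
        subset_span (mem_insert_of_mem _ (mem_image_of_mem _ hi))
      unfold vv
      split_ifs with h2
      · exact hx _ (h q hq).1
      · refine add_mem (add_mem ht (hx _ (h q hq).1)) (hx _ ?_)
        have : q / 2 + 1 = (q + 1) / 2 := by omega
        rw [this]; exact (h q hq).2)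
    have h2 := ncard_insert_le (tv k) (xv k '' G)
    have h3 := ncard_image_le (f := xv k) hG
    omega
  · have : Iio k ⊆ G := by
      intro i hi
      have hi' : i < k := hi
      have := (h (2 * i) ⟨by omega, by omega⟩).1
      rwa [Nat.mul_div_cancel_left _ (by norm_num)] at this
    have h2 := ncard_le_ncard this hG
    rw [XX_ncard]
    simp at h2
    omega

lemma arc1 {k : ℕ} {hk : 0 < k} {Q : Set ℕ} (hQ : (NN k hk).Indep Q) {a b : ℕ} (hab : a ≤ b)
    (h : ∀ q ∈ Q, a ≤ q ∧ q < b) : Q.ncard + a / 2 ≤ b / 2 + 2 := by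
  have h1 := gen_bound hQ (G := (fun i => i % k) '' Icc (a / 2) (b / 2))
    ((finite_Icc _ _).image _) (by
      intro q hq
      have h2 := h q hq
      have h3 : q < 2 * k := hQ.subset_ground hq
      exact ⟨⟨q / 2, ⟨by omega, by omega⟩, Nat.mod_eq_of_lt (by omega)⟩,
        ⟨(q + 1) / 2, ⟨by omega, by omega⟩, rfl⟩⟩)
  have h2 := ncard_image_le (f := fun i => i % k) (finite_Icc (a / 2) (b / 2))
  have h3 : (Icc (a / 2) (b / 2)).ncard = b / 2 + 1 - a / 2 := by simp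
  omega

lemma arc2 {k : ℕ} {hk : 0 < k} {Q : Set ℕ} (hQ : (NN k hk).Indep Q) {a b : ℕ} (hb : b ≤ 2 * k)
    (h : ∀ q ∈ Q, b ≤ q ∨ q < a) : Q.ncard + b / 2 ≤ k + a / 2 + 2 := by
  have h1 := gen_bound hQ (G := (fun i => i % k) '' Icc (b / 2) (k + a / 2))
    ((finite_Icc _ _).image _) (by
      intro q hq
      have h3 : q < 2 * k := hQ.subset_ground hq
      rcases h q hq with h2 | h2
      · exact ⟨⟨q / 2, ⟨by omega, by omega⟩, Nat.mod_eq_of_lt (by omega)⟩,
          ⟨(q + 1) / 2, ⟨by omega, by omega⟩, rfl⟩⟩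
      · refine ⟨⟨k + q / 2, ⟨by omega, by omega⟩, ?_⟩,
          ⟨k + (q + 1) / 2, ⟨by omega, by omega⟩, ?_⟩⟩
        · simp only [Nat.add_mod_left]; exact Nat.mod_eq_of_lt (by omega)
        · simp only [Nat.add_mod_left])
  have h2 := ncard_image_le (f := fun i => i % k) (finite_Icc (b / 2) (k + a / 2))
  have h3 : (Icc (b / 2) (k + a / 2)).ncard = k + a / 2 + 1 - b / 2 := by simp
  omega

/-- Choice of an interval next to `p` holding five of ten points. -/
lemma choose_arc {T : Set ℕ} {k p : ℕ} (hT : T ⊆ Iio (2 * k)) (hp : p ∉ T) (hpk : p < 2 * k)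
    (h10 : T.ncard = 10) :
    (∃ m, p + 1 ≤ m ∧ m ≤ 2 * k ∧ (T ∩ Ico (p + 1) m).ncard = 5) ∨
    (∃ m, m ≤ p ∧ (T ∩ Ico m p).ncard = 5) := by
  have hf : T.Finite := (finite_Iio _).subset hT
  have key : ∀ a b, a ≤ b → (T ∩ Iio b).ncard = (T ∩ Iio a).ncard + (T ∩ Ico a b).ncard := by
    intro a b hab
    rw [← ncard_union_eq _ (hf.subset inter_subset_left) (hf.subset inter_subset_left),
      ← inter_union_distrib_left, Iio_union_Ico_eq_Iio hab]
    rw [Set.disjoint_left]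
    rintro x ⟨-, hx⟩ ⟨-, hx', -⟩
    exact absurd hx (not_lt.2 hx')
  have mono : ∀ a b, a ≤ b → (T ∩ Iio a).ncard ≤ (T ∩ Iio b).ncard := fun a b hab => by
    rw [key a b hab]; omega
  have hp1 : T ∩ Iio (p + 1) = T ∩ Iio p := by
    ext x
    simp only [mem_inter_iff, mem_Iio]
    constructor
    · rintro ⟨h1, h2⟩
      refine ⟨h1, lt_of_le_of_ne (by omega) ?_⟩
      rintro rfl; exact hp h1
    · rintro ⟨h1, h2⟩; exact ⟨h1, by omega⟩
  have htop : (T ∩ Iio (2 * k)).ncard = 10 := by rw [inter_eq_left.2 hT, h10]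
  by_cases h5 : 5 ≤ (T ∩ Iio p).ncard
  · right
    have := mono p (2 * k) hpk.le
    obtain ⟨m, hm⟩ := exists_ncard_inter_Iio hf (j := (T ∩ Iio p).ncard - 5) (by omega)
    have hmp : m ≤ p := by
      by_contra hc
      have := mono p m (by omega)
      omega
    refine ⟨m, hmp, ?_⟩
    have := key m p hmp
    omega
  · left
    obtain ⟨m, hm⟩ := exists_ncard_inter_Iio hf (j := (T ∩ Iio p).ncard + 5) (by omega)
    have hmp : p + 1 ≤ m := by
      by_contra hc
      have := mono m p (by omega)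
      omega
    refine ⟨min m (2 * k), by omega, by omega, ?_⟩
    have h1 := key (p + 1) (min m (2 * k)) (by omega)
    rw [hp1] at h1
    have h2 : T ∩ Iio (min m (2 * k)) = T ∩ Iio m := by
      ext x
      simp only [mem_inter_iff, mem_Iio]
      constructor
      · rintro ⟨h1, h2⟩; exact ⟨h1, by omega⟩
      · rintro ⟨h1, h2⟩
        have : x < 2 * k := hT h1
        exact ⟨h1, by omega⟩
    rw [h2] at h1
    omega

lemma base_ge {P : Matroid ℕ} (hP : P.E.Finite) {I B : Set ℕ} (hI : P.Indep I) (hB : P.IsBase B) :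
    I.ncard ≤ B.ncard := by
  obtain ⟨B', hB', hIB⟩ := hI.exists_isBase_superset
  rw [hB.ncard_eq_ncard_of_isBase hB']
  exact ncard_le_ncard hIB (hP.subset hB'.subset_ground)

/-- Deleting an odd position leaves no wide minor. -/
lemma no_wide_delete {k : ℕ} {hk : 0 < k} {p : ℕ} (hpk : p < 2 * k) (hp : p % 2 = 1)
    {N : Matroid ℕ} (h : N ≤m NN k hk ＼ {p}) : ¬ Wide N := by
  intro hN
  have hE : N.E ⊆ Iio (2 * k) \ {p} := h.subset
  have hPf : (NN k hk ＼ {p}).E.Finite := (finite_Iio (2 * k)).subset sdiff_subset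
  have hX : (NN k hk ＼ {p}).Indep (XX k) := by
    rw [Matroid.delete_indep_iff]
    refine ⟨NN_XX k hk, ?_⟩
    rw [disjoint_singleton_right]
    intro h; have := h.2; omega
  rcases choose_arc (hE.trans sdiff_subset) (fun h => (hE h).2 rfl) hpk hN.1 with
    ⟨m, h1, h2, h3⟩ | ⟨m, h1, h3⟩
  · obtain ⟨Q, hQ, Q', hQ', B, hQi, hQ'i, hB, hc⟩ := wide_minor hPf h hN _ h3
    have h4 := base_ge hPf hX hB
    rw [XX_ncard] at h4
    rw [Matroid.delete_indep_iff] at hQi hQ'i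
    have h5 := arc1 hQi.1 h1 (fun q hq => hQ hq)
    have h6 := arc2 hQ'i.1 (a := p) h2 (fun q hq => by
      have h7 : ¬ (p + 1 ≤ q ∧ q < m) := hQ' hq
      have h8 : q ≠ p := fun h => (disjoint_singleton_right.1 hQ'i.2) (h ▸ hq)
      omega)
    omega
  · obtain ⟨Q, hQ, Q', hQ', B, hQi, hQ'i, hB, hc⟩ := wide_minor hPf h hN _ h3
    have h4 := base_ge hPf hX hB
    rw [XX_ncard] at h4
    rw [Matroid.delete_indep_iff] at hQi hQ'i
    have h5 := arc1 hQi.1 h1 (fun q hq => hQ hq)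
    have h6 := arc2 hQ'i.1 (a := m) (b := p + 1) (by omega) (fun q hq => by
      have h7 : ¬ (m ≤ q ∧ q < p) := hQ' hq
      have h8 : q ≠ p := fun h => (disjoint_singleton_right.1 hQ'i.2) (h ▸ hq)
      omega)
    omega

/-- Contracting an even position leaves no wide minor. -/
lemma no_wide_contract {k : ℕ} {hk : 0 < k} {p : ℕ} (hpk : p < 2 * k) (hp : p % 2 = 0)
    {N : Matroid ℕ} (h : N ≤m NN k hk ／ {p}) : ¬ Wide N := by
  intro hN
  have hE : N.E ⊆ Iio (2 * k) \ {p} := h.subset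
  have hPf : (NN k hk ／ {p}).E.Finite := (finite_Iio (2 * k)).subset sdiff_subset
  have hpX : p ∈ XX k := ⟨hpk, hp⟩
  have hpi : (NN k hk).Indep {p} := (NN_XX k hk).subset (singleton_subset_iff.2 hpX)
  have hX : (NN k hk ／ {p}).Indep (XX k \ {p}) :=
    (NN_XX k hk).diff_indep_contract_of_subset (singleton_subset_iff.2 hpX)
  have hXc := ncard_sdiff_singleton_add_one hpX (XX_finite k)
  rw [XX_ncard] at hXc
  have hcard : ∀ Q, (NN k hk ／ {p}).Indep Q → (Q ∪ {p}).ncard = Q.ncard + 1 := by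
    intro Q hQ
    rw [ncard_union_eq ((hpi.contract_indep_iff.1 hQ).1) (hPf.subset hQ.subset_ground),
      ncard_singleton]
  rcases choose_arc (hE.trans sdiff_subset) (fun h => (hE h).2 rfl) hpk hN.1 with
    ⟨m, h1, h2, h3⟩ | ⟨m, h1, h3⟩
  · obtain ⟨Q, hQ, Q', hQ', B, hQi, hQ'i, hB, hc⟩ := wide_minor hPf h hN _ h3
    have h4 := base_ge hPf hX hB
    have c1 := hcard Q hQi
    have c2 := hcard Q' hQ'i
    rw [hpi.contract_indep_iff] at hQi hQ'i
    have h5 := arc1 hQi.2 (a := p) (b := m) (by omega) (by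
      rintro q (hq | hq)
      · have := hQ hq
        exact ⟨by have := this.1; omega, this.2⟩
      · have : q = p := hq
        omega)
    have h6 := arc2 hQ'i.2 (a := p + 1) h2 (by
      rintro q (hq | hq)
      · have h7 : ¬ (p + 1 ≤ q ∧ q < m) := hQ' hq
        omega
      · have : q = p := hq
        omega)
    omega
  · obtain ⟨Q, hQ, Q', hQ', B, hQi, hQ'i, hB, hc⟩ := wide_minor hPf h hN _ h3
    have h4 := base_ge hPf hX hB
    have c1 := hcard Q hQi
    have c2 := hcard Q' hQ'i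
    rw [hpi.contract_indep_iff] at hQi hQ'i
    have h5 := arc1 hQi.2 (a := m) (b := p + 1) (by omega) (by
      rintro q (hq | hq)
      · have := hQ hq
        exact ⟨this.1, by have := this.2; omega⟩
      · have : q = p := hq
        omega)
    have h6 := arc2 hQ'i.2 (a := m) (b := p) (by omega) (by
      rintro q (hq | hq)
      · have h7 : ¬ (m ≤ q ∧ q < p) := hQ' hq
        omega
      · have : q = p := hq
        omega)
    omega

/-- A matroid on four points with independent sets those of size at most two is not a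
contraction of a binary configuration. -/
lemma not_U24 {V : Type*} [AddCommGroup V] [Module F2 V] {v : ℕ → V} {N : Matroid ℕ}
    {I : Set ℕ} (hd : Disjoint I N.E)
    (hi : ∀ J ⊆ N.E, (N.Indep J ↔ LinearIndepOn F2 v (J ∪ I)))
    (h4 : N.E.ncard = 4) (h : ∀ J ⊆ N.E, (N.Indep J ↔ J.ncard ≤ 2)) : False := by
  obtain ⟨a, b, c, d, hab, hac, had, hbc, hbd, hcd, hE⟩ := ncard_eq_four.1 h4
  have pair : ∀ x ∈ N.E, ∀ y ∈ N.E, x ≠ y → LinearIndepOn F2 v ({x, y} ∪ I) := by
    intro x hx y hy hxy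
    have hs : ({x, y} : Set ℕ) ⊆ N.E := pair_subset hx hy
    rw [← hi _ hs, h _ hs, ncard_pair hxy]
  have triple : ∀ x ∈ N.E, ∀ y ∈ N.E, ∀ z ∈ N.E, x ≠ y → x ≠ z → y ≠ z →
      ¬ LinearIndepOn F2 v ({x, y, z} ∪ I) := by
    intro x hx y hy z hz hxy hxz hyz
    have hs : ({x, y, z} : Set ℕ) ⊆ N.E := insert_subset hx (pair_subset hy hz)
    rw [← hi _ hs, h _ hs, ncard_eq_three.2 ⟨x, y, z, hxy, hxz, hyz, rfl⟩]
    omega
  have ha : a ∈ N.E := by simp [hE]
  have hb : b ∈ N.E := by simp [hE]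
  have hc : c ∈ N.E := by simp [hE]
  have hd' : d ∈ N.E := by simp [hE]
  exact no_four_point_line (fun h => Set.disjoint_left.1 hd h hc) hac hbc hcd
    (pair a ha b hb hab) (pair a ha c hc hac) (pair b hb c hc hbc) (pair a ha d hd' had)
    (pair b hb d hd' hbd) (pair c hc d hd' hcd) (triple a ha b hb c hc hab hac hbc)
    (triple a ha b hb d hd' hab had hbd)

lemma no_U24_delete {k : ℕ} {hk : 0 < k} {p : ℕ} (hpk : p < 2 * k) (hp : p % 2 = 0)
    {N : Matroid ℕ} (h : N ≤m NN k hk ＼ {p}) (h4 : N.E.ncard = 4)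
    (hU : ∀ J ⊆ N.E, (N.Indep J ↔ J.ncard ≤ 2)) : False := by
  obtain ⟨I, hI, hd, hi⟩ := minor_indep h
  have hE : N.E ⊆ Iio (2 * k) \ {p} := h.subset
  have hIE : I ⊆ Iio (2 * k) \ {p} := hI.subset_ground
  refine not_U24 (v := vv k) hd (fun J hJ => ?_) h4 hU
  have hsub : J ∪ I ⊆ Iio (2 * k) \ {p} := union_subset (hJ.trans hE) hIE
  rw [hi J hJ, Matroid.delete_indep_iff, NN_indep_of_ne _ (hsub.trans sdiff_subset),
    and_iff_left (disjoint_singleton_right.2 fun h => (hsub h).2 rfl)]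
  intro heq
  have : p ∈ J ∪ I := heq ▸ (⟨hpk, hp⟩ : p ∈ XX k)
  exact (hsub this).2 rfl

lemma vv_ne_zero {k : ℕ} (hk : 0 < k) {p : ℕ} (hp : p % 2 = 1) : vv k p ≠ 0 := by
  intro h
  have h1 := congrArg (co k 0) h
  have hy2 : ¬ p % 2 = 0 := by omega
  simp [vv, hy2, co_xv hk, co_tv hk] at h1

lemma no_U24_contract {k : ℕ} {hk : 0 < k} {p : ℕ} (hpk : p < 2 * k) (hp : p % 2 = 1)
    {N : Matroid ℕ} (h : N ≤m NN k hk ／ {p}) (h4 : N.E.ncard = 4)
    (hU : ∀ J ⊆ N.E, (N.Indep J ↔ J.ncard ≤ 2)) : False := by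
  obtain ⟨I, hI, hd, hi⟩ := minor_indep h
  have hE : N.E ⊆ Iio (2 * k) \ {p} := h.subset
  have hIE : I ⊆ Iio (2 * k) \ {p} := hI.subset_ground
  have hpi : (NN k hk).Indep {p} :=
    (NN_indep k hk _).2 (Or.inl ⟨singleton_subset_iff.2 hpk,
      LinearIndepOn.singleton (vv_ne_zero hk hp)⟩)
  refine not_U24 (v := vv k) (I := I ∪ {p}) ?_ (fun J hJ => ?_) h4 hU
  · rw [disjoint_union_left]
    exact ⟨hd, disjoint_singleton_left.2 fun h => (hE h).2 rfl⟩
  have hsub : J ∪ I ⊆ Iio (2 * k) \ {p} := union_subset (hJ.trans hE) hIE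
  rw [hi J hJ, hpi.contract_indep_iff, NN_indep_of_ne _
    (union_subset (hsub.trans sdiff_subset) (singleton_subset_iff.2 hpk)),
    and_iff_right (disjoint_singleton_right.2 fun h => (hsub h).2 rfl), union_assoc]
  intro heq
  have : p ∈ XX k := heq ▸ (Or.inr rfl : p ∈ J ∪ I ∪ {p})
  have := this.2
  omega

end Pool.Agent.MP_a6f858_co
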