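import Mathlib.RingTheory.PicardGroup
import Pool.Agent.MP_a6f858_co.Family

set_option autoImplicit false

open Set Submodule
open scoped Matroid

namespace Pool.Agent.MP_a6f858_co

/-- Contract an independent set and restrict to `T`. -/
lemma exists_minor {P : Matroid ℕ} {C T : Set ℕ} (hC : P.Indep C) (hT : T ⊆ P.E)
    (hd : Disjoint T C) :
    ∃ N, N ≤m P ∧ N.E = T ∧ ∀ J ⊆ T, (N.Indep J ↔ P.Indep (J ∪ C)) := by
  refine ⟨P ／ C ＼ Tᶜ, Matroid.contract_delete_isMinor .., ?_, fun J hJ => ?_⟩
  · ext x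
    simp only [Matroid.delete_ground, Matroid.contract_ground, mem_sdiff, mem_compl_iff, not_not]
    exact ⟨fun h => h.2, fun h => ⟨⟨hT h, fun h' => Set.disjoint_left.1 hd h h'⟩, h⟩⟩
  · rw [Matroid.delete_indep_iff, hC.contract_indep_iff, and_iff_right (hd.mono_left hJ),
      and_iff_left (disjoint_compl_right.mono_left hJ)]

/-- Images of the first four vectors modulo `x 2, …, x (k-1)`. -/
def u4 (q : ℕ) : F2 × F2 :=
  if q = 0 then (0, 1) else if q = 1 then (1, 0) else if q = 2 then (0, 1) else (1, 1)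

lemma u4_check : ∀ J ∈ (Finset.range 4).powerset, J.card ≤ 2 →
    J = {0, 2} ∨ ∀ Z ∈ J.powerset, ∑ z ∈ Z, u4 z = 0 → Z = ∅ := by
  decide +kernel

lemma has_U24 {k : ℕ} (hk : 0 < k) (hk3 : 3 ≤ k) : ∃ N₂ : Matroid ℕ, N₂ ≤m NN k hk ∧
    N₂.E.Finite ∧ N₂.E.ncard = 4 ∧ ∀ I ⊆ N₂.E, (N₂.Indep I ↔ I.ncard ≤ 2) := by
  have hC : (NN k hk).Indep (XX k \ {0, 2}) := (NN_XX k hk).subset sdiff_subset
  have hd : Disjoint (Iio 4) (XX k \ {0, 2}) := by
    rw [Set.disjoint_left]
    rintro x hx ⟨⟨-, h1⟩, h2⟩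
    have : x < 4 := hx
    simp only [mem_insert_iff, mem_singleton_iff] at h2
    omega
  have hsub : ({0, 2} : Set ℕ) ⊆ XX k :=
    pair_subset ⟨by omega, by omega⟩ ⟨by omega, by omega⟩
  have hcard : (XX k \ {0, 2}).ncard + 2 = k := by
    have := ncard_sdiff_add_ncard_of_subset hsub (XX_finite k)
    rwa [ncard_pair (by norm_num), XX_ncard] at this
  have hT : Iio 4 ⊆ (NN k hk).E := fun x hx => by
    have : x < 4 := hx
    show x < 2 * k
    omega
  obtain ⟨N, hN, hE, hi⟩ := exists_minor hC hT hd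
  refine ⟨N, hN, hE ▸ finite_Iio 4, by simp [hE], fun J hJ => ?_⟩
  rw [hE] at hJ
  have hJf : J.Finite := (finite_Iio 4).subset hJ
  rw [hi J hJ]
  constructor
  · intro h
    have := NN_ncard_le h
    rw [ncard_union_eq (hd.mono_left hJ) hJf ((XX_finite k).subset sdiff_subset)] at this
    omega
  · intro h
    lift J to Finset ℕ using hJf
    rw [ncard_coe_finset] at h
    have hJ' : J ∈ (Finset.range 4).powerset :=
      Finset.mem_powerset.2 fun x hx => Finset.mem_range.2 (hJ hx)
    rcases u4_check J hJ' h with rfl | h2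
    · rw [Finset.coe_pair, union_sdiff_cancel hsub]
      exact NN_XX k hk
    · refine (NN_indep k hk _).2 (Or.inl ⟨union_subset (hJ.trans hT) hC.subset_ground, ?_⟩)
      apply indep_union_of_map ((co k 0).prod (co k 1))
      · exact (indep_XX_sdiff k 0 (hsub (mem_insert _ _))).mono
          (sdiff_subset_sdiff_right (by simp))
      · rintro c ⟨⟨h3, h4⟩, h5⟩
        simp only [mem_insert_iff, mem_singleton_iff] at h5
        simp [vv, h4, co_xv hk, co_xv (show 1 < k by omega)]
        omega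
      · refine (indep_iff_zero_sum u4 J h2).congr fun q hq => ?_
        have hq4 : q < 4 := hJ hq
        have e1 : 1 % k = 1 := Nat.mod_eq_of_lt (by omega)
        have e2 : 2 % k = 2 := Nat.mod_eq_of_lt (by omega)
        interval_cases q <;>
          simp [u4, vv, co_xv hk, co_xv (show 1 < k by omega), co_tv hk,
            co_tv (show 1 < k by omega), e1, e2]
        decide

/-- Images of the coordinate vectors in the five-dimensional quotient. -/
def g5 (c : ℕ) : Fin 5 → F2 := fun a =>
  if c = 0 then 1 else if c ≤ 4 then (if a.val = c then 1 else 0)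
  else if c % 2 = 1 then (if a.val = 0 then 1 else 0) else (if a.val = 0 then 0 else 1)

/-- The quotient map. -/
def phi (k : ℕ) : (Fin k → F2) →ₗ[F2] (Fin 5 → F2) :=
  Fintype.linearCombination F2 (fun c : Fin k => g5 c.val)

lemma phi_tv {k : ℕ} (hk : 0 < k) : phi k (tv k) = g5 0 := by
  rw [phi, Fintype.linearCombination_apply, Finset.sum_eq_single (⟨0, hk⟩ : Fin k)]
  · simp [tv]
  · intro b _ hb
    have : b.val ≠ 0 := fun h => hb (Fin.ext h)
    simp [tv, this]
  · simp

lemma phi_xv {k i : ℕ} (h0 : i ≠ 0) (hi : i < k) : phi k (xv k i) = g5 i := by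
  rw [phi, Fintype.linearCombination_apply, Finset.sum_eq_single (⟨i, hi⟩ : Fin k)]
  · simp [xv, h0]
  · intro b _ hb
    have : b.val ≠ i := fun h => hb (Fin.ext h)
    simp [xv, this, h0]
  · simp

lemma sum_g5 (j : ℕ) : ∑ c ∈ Finset.range (4 * j + 7),
    (if c = 0 then (0 : F2) else 1) • g5 c = g5 5 := by
  induction j with
  | zero => decide +kernel
  | succ j ih =>
    rw [show 4 * (j + 1) + 7 = 4 * j + 7 + 1 + 1 + 1 + 1 by ring, Finset.sum_range_succ,
      Finset.sum_range_succ, Finset.sum_range_succ, Finset.sum_range_succ, ih]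
    have h1 : g5 (4 * j + 7) = g5 5 := by
      ext a; simp only [g5]; split_ifs <;> first | omega | rfl | contradiction
    have h2 : g5 (4 * j + 7 + 1) = g5 6 := by
      ext a; simp only [g5]; split_ifs <;> first | omega | rfl | contradiction
    have h3 : g5 (4 * j + 7 + 1 + 1) = g5 5 := by
      ext a; simp only [g5]; split_ifs <;> first | omega | rfl | contradiction
    have h4 : g5 (4 * j + 7 + 1 + 1 + 1) = g5 6 := by
      ext a; simp only [g5]; split_ifs <;> first | omega | rfl | contradiction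
    rw [h1, h2, h3, h4, if_neg (by omega), if_neg (by omega), if_neg (by omega), if_neg (by omega)]
    decide +kernel

lemma phi_xv_zero (j : ℕ) : phi (4 * j + 7) (xv (4 * j + 7) 0) = g5 5 := by
  rw [phi, Fintype.linearCombination_apply, ← sum_g5 j,
    ← Fin.sum_univ_eq_sum_range (fun c => (if c = 0 then (0 : F2) else 1) • g5 c)]
  apply Finset.sum_congr rfl
  intro c _
  simp [xv]

lemma phi_vv_small (j : ℕ) {q : ℕ} (hq : q < 10) : phi (4 * j + 7) (vv (4 * j + 7) q) = w q := by
  have e : ∀ i, i < 7 → i % (4 * j + 7) = i := fun i hi => Nat.mod_eq_of_lt (by omega)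
  have hx : ∀ i, i ≠ 0 → i < 7 → phi (4 * j + 7) (xv (4 * j + 7) i) = g5 i :=
    fun i h0 hi => phi_xv h0 (by omega)
  have ht := phi_tv (k := 4 * j + 7) (by omega)
  have h0 := phi_xv_zero j
  interval_cases q <;>
    simp only [vv, Nat.reduceMod, Nat.reduceDiv, Nat.reduceAdd, if_true, if_false, map_add, ht, h0,
      Nat.zero_mod, Nat.zero_div, Nat.one_ne_zero, e 1 (by omega), e 2 (by omega), e 3 (by omega),
      e 4 (by omega), e 5 (by omega), hx 1 (by omega) (by omega), hx 2 (by omega) (by omega),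
      hx 3 (by omega) (by omega), hx 4 (by omega) (by omega), hx 5 (by omega) (by omega)] <;>
    decide +kernel

/-- The contracted set: odd positions from `11` on. -/
def CC (k : ℕ) : Set ℕ := {q | 10 ≤ q ∧ q < 2 * k ∧ q % 2 = 1}

lemma CC_ncard (k : ℕ) : (CC k).ncard = k - 5 := by
  have : CC k = (fun i => 2 * i + 1) '' Ico 5 k := by
    ext q
    simp only [CC, mem_ofPred_eq, mem_image, mem_Ico]
    constructor
    · rintro ⟨h1, h2, h3⟩; exact ⟨q / 2, by omega, by omega⟩
    · rintro ⟨i, h1, rfl⟩; omega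
  rw [this, ncard_image_of_injective _ (fun a b h => by simpa using h)]
  simp

lemma phi_CC (j : ℕ) : ∀ q ∈ CC (4 * j + 7), phi (4 * j + 7) (vv (4 * j + 7) q) = 0 := by
  rintro q ⟨h1, h2, h3⟩
  have h4 : ¬ q % 2 = 0 := by omega
  simp only [vv, h4, if_false, map_add]
  rw [phi_tv (by omega), phi_xv (by omega) (by omega)]
  by_cases h5 : q / 2 + 1 = 4 * j + 7
  · rw [h5, Nat.mod_self, phi_xv_zero]
    have : g5 (q / 2) = g5 6 := by
      ext a; simp only [g5]; split_ifs <;> first | omega | rfl | contradiction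
    rw [this]; decide +kernel
  · rw [Nat.mod_eq_of_lt (by omega), phi_xv (by omega) (by omega)]
    by_cases h6 : q / 2 % 2 = 0
    · have a1 : g5 (q / 2) = g5 6 := by
        ext a; simp only [g5]; split_ifs <;> first | omega | rfl | contradiction
      have a2 : g5 (q / 2 + 1) = g5 5 := by
        ext a; simp only [g5]; split_ifs <;> first | omega | rfl | contradiction
      rw [a1, a2]; decide +kernel
    · have a1 : g5 (q / 2) = g5 5 := by
        ext a; simp only [g5]; split_ifs <;> first | omega | rfl | contradiction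
      have a2 : g5 (q / 2 + 1) = g5 6 := by
        ext a; simp only [g5]; split_ifs <;> first | omega | rfl | contradiction
      rw [a1, a2]; decide +kernel

lemma indep_CC (k : ℕ) : LinearIndepOn F2 (vv k) (CC k) := by
  apply indep_of_triangular (fun q => co k (q / 2) + co k 2)
  · rintro q ⟨h1, h2, h3⟩
    have h4 : ¬ q % 2 = 0 := by omega
    simp only [vv, h4, if_false, map_add, LinearMap.add_apply]
    rw [co_tv (by omega), co_tv (by omega), co_xv (by omega), co_xv (by omega), co_xv (by omega),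
      co_xv (by omega)]
    by_cases h5 : q / 2 + 1 = k
    · rw [h5, Nat.mod_self]
      split_ifs <;> first | omega | decide | (simp only [false_or] at *; omega) | contradiction
    · rw [Nat.mod_eq_of_lt (by omega)]
      split_ifs <;> first | omega | decide | (simp only [false_or] at *; omega) | contradiction
  · rintro q ⟨h1, h2, h3⟩ p ⟨h1', h2', h3'⟩ hpq
    have h4 : ¬ q % 2 = 0 := by omega
    simp only [vv, h4, if_false, map_add, LinearMap.add_apply]
    rw [co_tv (by omega), co_tv (by omega), co_xv (by omega), co_xv (by omega), co_xv (by omega),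
      co_xv (by omega)]
    by_cases h5 : q / 2 + 1 = k
    · rw [h5, Nat.mod_self]
      split_ifs <;> first | omega | decide | (simp only [false_or] at *; omega) | contradiction
    · rw [Nat.mod_eq_of_lt (by omega)]
      split_ifs <;> first | omega | decide | (simp only [false_or] at *; omega) | contradiction

lemma CC_finite (k : ℕ) : (CC k).Finite := (finite_Iio (2 * k)).subset fun _ h => h.2.1

lemma ker_phi (j : ℕ) :
    LinearMap.ker (phi (4 * j + 7)) ≤ span F2 (vv (4 * j + 7) '' CC (4 * j + 7)) := by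
  classical
  have hle : span F2 (vv (4 * j + 7) '' CC (4 * j + 7)) ≤ LinearMap.ker (phi (4 * j + 7)) := by
    rw [span_le]; rintro _ ⟨c, hc, rfl⟩; exact phi_CC j c hc
  refine (eq_of_le_of_finrank_le hle ?_).ge
  have hf := (CC_finite (4 * j + 7)).image (vv (4 * j + 7))
  have h1 : Module.finrank F2 (span F2 (vv (4 * j + 7) '' CC (4 * j + 7))) = 4 * j + 2 := by
    have := finrank_span_finset_eq_card (R := F2) (s := hf.toFinset)
      (by simpa using (indep_CC (4 * j + 7)).id_image)
    rw [Finite.coe_toFinset, ← ncard_eq_toFinset_card _ hf,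
      (indep_CC (4 * j + 7)).injOn.ncard_image, CC_ncard] at this
    rw [this]; omega
  have h2 : LinearMap.range (phi (4 * j + 7)) = ⊤ := by
    rw [eq_top_iff, ← (Pi.basisFun F2 (Fin 5)).span_eq, span_le]
    rintro _ ⟨a, rfl⟩
    refine ⟨vv (4 * j + 7) (2 * a.val), ?_⟩
    rw [phi_vv_small j (by omega)]
    ext b
    simp [w, Pi.single_apply, Fin.ext_iff]
  have h3 := (phi (4 * j + 7)).finrank_range_add_finrank_ker
  rw [h2, finrank_top, Module.finrank_fin_fun, Module.finrank_fin_fun] at h3
  omega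

lemma has_R10 (j : ℕ) (hk : 0 < 4 * j + 7) : ∃ N₁ : Matroid ℕ, N₁ ≤m NN (4 * j + 7) hk ∧
    ∃ f : ℕ → ℕ, Set.BijOn f N₁.E R10.E ∧ ∀ I ⊆ N₁.E, (N₁.Indep I ↔ R10.Indep (f '' I)) := by
  have hCE : CC (4 * j + 7) ⊆ Iio (2 * (4 * j + 7)) := fun _ h => h.2.1
  have hC : (NN (4 * j + 7) hk).Indep (CC (4 * j + 7)) :=
    (NN_indep _ hk _).2 (Or.inl ⟨hCE, indep_CC _⟩)
  have hd : Disjoint (Iio 10) (CC (4 * j + 7)) := by
    rw [Set.disjoint_left]
    rintro x hx ⟨h1, -⟩
    exact absurd hx (not_lt.2 h1)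
  have hT : Iio 10 ⊆ (NN (4 * j + 7) hk).E := fun x hx => by
    have : x < 10 := hx
    show x < 2 * (4 * j + 7)
    omega
  obtain ⟨N, hN, hE, hi⟩ := exists_minor hC hT hd
  refine ⟨N, hN, id, by rw [hE]; exact bijOn_id _, fun J hJ => ?_⟩
  rw [hE] at hJ
  have hne : J ∪ CC (4 * j + 7) ≠ XX (4 * j + 7) := by
    intro h
    have h1 : 11 ∈ J ∪ CC (4 * j + 7) := Or.inr ⟨by omega, by omega, by omega⟩
    rw [h] at h1
    have := h1.2
    omega
  rw [hi J hJ, image_id, NN_indep_of_ne hne (union_subset (hJ.trans hT) hCE), R10, linM_indep,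
    and_iff_right hJ]
  have hw : EqOn (phi (4 * j + 7) ∘ vv (4 * j + 7)) w J := fun q hq => phi_vv_small j (hJ hq)
  rw [← linearIndepOn_congr hw]
  exact ⟨indep_map_of_union _ (hd.mono_left hJ) (ker_phi j),
    indep_union_of_map _ (indep_CC _) (phi_CC j)⟩

end Pool.Agent.MP_a6f858_co
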